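import Pool.Agent.Helper17.RZ.Sch.St
import Pool.Agent.Helper17.RZ.Sch.Dual

/-!
# Project RZ (MP_77656e_ag), the layer of schemes, module S2b: a locally free family of lattices is
the sheaf of sections of a vector bundle
-/

set_option autoImplicit false

open AlgebraicGeometry CategoryTheory TopologicalSpace Opposite

namespace Pool.Agent.Helper7.RZ

open Pool.Agent.Helper17.RZ Pool.Agent.Helper17.RZ.Sch

universe u

noncomputable section

variable {k : Type u} [Field k] (X : CSch.{u} k)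

theorem reg_zero (y : X.Z) : Reg X y 0 := ⟨⊤, trivial, (X.OO ⊤).zero_mem⟩

theorem reg_one (y : X.Z) : Reg X y 1 := ⟨⊤, trivial, (X.OO ⊤).one_mem⟩

theorem reg_add {y : X.Z} {a b : X.K} (ha : Reg X y a) (hb : Reg X y b) : Reg X y (a + b) := by
  obtain ⟨W, hW, ha⟩ := ha
  obtain ⟨W', hW', hb⟩ := hb
  exact ⟨W ⊓ W', ⟨hW, hW'⟩, (X.OO _).add_mem (X.OO_mono inf_le_left ha)
    (X.OO_mono inf_le_right hb)⟩

theorem reg_mul {y : X.Z} {a b : X.K} (ha : Reg X y a) (hb : Reg X y b) : Reg X y (a * b) := by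
  obtain ⟨W, hW, ha⟩ := ha
  obtain ⟨W', hW', hb⟩ := hb
  exact ⟨W ⊓ W', ⟨hW, hW'⟩, (X.OO _).mul_mem (X.OO_mono inf_le_left ha)
    (X.OO_mono inf_le_right hb)⟩

theorem reg_neg {y : X.Z} {a : X.K} (ha : Reg X y a) : Reg X y (-a) := by
  obtain ⟨W, hW, ha⟩ := ha
  exact ⟨W, hW, (X.OO _).neg_mem ha⟩

variable {V : Type u} [AddCommGroup V] [Module X.K V] (L : X.Z → Set V)

/-- the lattices are modules over the local rings -/
structure IsLat : Prop where
  zero : ∀ y, (0 : V) ∈ L y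
  add : ∀ y v w, v ∈ L y → w ∈ L y → v + w ∈ L y
  neg : ∀ y v, v ∈ L y → -v ∈ L y
  smul : ∀ y (c : X.K) v, Reg X y c → v ∈ L y → c • v ∈ L y

/-- locally free -/
def LocFree : Prop :=
  ∀ x : X.Z, ∃ U : X.Z.Opens, x ∈ U ∧ ∃ (n : ℕ) (e : Module.Basis (Fin n) X.K V), ∀ y ∈ U, ∀ v,
      v ∈ L y ↔ ∀ j, Reg X y (e.repr v j)

variable {L} in
theorem isLat (hL : LocFree X L) : IsLat X L where
  zero y := by
    obtain ⟨U, hy, n, e, he⟩ := hL y
    rw [he y hy]
    intro j
    rw [map_zero]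
    exact reg_zero X y
  add y v w hv hw := by
    obtain ⟨U, hy, n, e, he⟩ := hL y
    rw [he y hy] at hv hw ⊢
    intro j
    rw [map_add]
    exact reg_add X (hv j) (hw j)
  neg y v hv := by
    obtain ⟨U, hy, n, e, he⟩ := hL y
    rw [he y hy] at hv ⊢
    intro j
    rw [map_neg]
    exact reg_neg X (hv j)
  smul y c v hc hv := by
    obtain ⟨U, hy, n, e, he⟩ := hL y
    rw [he y hy] at hv ⊢
    intro j
    rw [map_smul]
    exact reg_mul X hc (hv j)

variable {X L} (hL : IsLat X L)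

include hL in
/-- sections over `W` -/
def Sec (W : X.Z.Opens) : AddSubgroup (PLift (X.eta ∈ W) → V) where
  carrier := {s | ∀ h : PLift (X.eta ∈ W), ∀ y ∈ W, s h ∈ L y}
  zero_mem' := fun _ y _ => hL.zero y
  add_mem' := fun ha hb h y hy => hL.add y _ _ (ha h y hy) (hb h y hy)
  neg_mem' := fun ha h y hy => hL.neg y _ (ha h y hy)

theorem reg_gr {W : X.Z.Opens} (h : X.eta ∈ W) (r : Γ(X.Z, W)) {y : X.Z} (hy : y ∈ W) :
    Reg X y (X.gr W h r) := ⟨W, hy, X.gr_mem_OO W h r⟩

instance secModule (W : X.Z.Opens) : Module Γ(X.Z, W) (Sec hL W) where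
  smul r s := ⟨fun h => X.gr W h.down r • s.1 h, fun h y hy =>
    hL.smul y _ _ (reg_gr h.down r hy) (s.2 h y hy)⟩
  one_smul s := by
    apply Subtype.ext
    funext h
    change X.gr W h.down 1 • s.1 h = s.1 h
    rw [map_one, one_smul]
  mul_smul a b s := by
    apply Subtype.ext
    funext h
    change X.gr W h.down (a * b) • s.1 h = X.gr W h.down a • X.gr W h.down b • s.1 h
    rw [map_mul, mul_smul]
  smul_zero a := by
    apply Subtype.ext
    funext h
    change X.gr W h.down a • (0 : V) = 0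
    rw [smul_zero]
  smul_add a s t := by
    apply Subtype.ext
    funext h
    change X.gr W h.down a • (s.1 h + t.1 h) = X.gr W h.down a • s.1 h + X.gr W h.down a • t.1 h
    rw [smul_add]
  add_smul a b s := by
    apply Subtype.ext
    funext h
    change X.gr W h.down (a + b) • s.1 h = X.gr W h.down a • s.1 h + X.gr W h.down b • s.1 h
    rw [map_add, add_smul]
  zero_smul s := by
    apply Subtype.ext
    funext h
    change X.gr W h.down 0 • s.1 h = 0
    rw [map_zero, zero_smul]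

theorem sec_smul_val (W : X.Z.Opens) (r : Γ(X.Z, W)) (s : Sec hL W) (h : PLift (X.eta ∈ W)) :
    (r • s).1 h = X.gr W h.down r • s.1 h := rfl

/-- restriction -/
def resS {W W' : X.Z.Opens} (i : W' ≤ W) : Sec hL W →+ Sec hL W' where
  toFun s := ⟨fun h => s.1 ⟨i h.down⟩, fun h y hy => s.2 _ y (i hy)⟩
  map_zero' := rfl
  map_add' _ _ := rfl

/-- the presheaf of abelian groups -/
def preE : TopCat.Presheaf Ab.{u} X.Z.toPresheafedSpace.carrier where
  obj W := AddCommGrpCat.of (Sec hL W.unop)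
  map f := AddCommGrpCat.ofHom (resS hL (leOfHom f.unop))
  map_id _ := rfl
  map_comp _ _ := rfl

theorem preE_isSheaf : (preE hL).IsSheaf := by
  rw [TopCat.Presheaf.isSheaf_iff_isSheafUniqueGluing]
  intro ι U sf hc
  have hc' : ∀ i j (hi : X.eta ∈ U i) (hj : X.eta ∈ U j),
      (show Sec hL (U i) from sf i).1 ⟨hi⟩ = (show Sec hL (U j) from sf j).1 ⟨hj⟩ := by
    intro i j hi hj
    have h1 := hc i j
    have h2 : (show Sec hL (U i ⊓ U j) from (preE hL).map (TopologicalSpace.Opens.infLELeft (U i) (U j)).op (sf i)).1 ⟨⟨hi, hj⟩⟩ =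
      (show Sec hL (U i ⊓ U j) from (preE hL).map (TopologicalSpace.Opens.infLERight (U i) (U j)).op (sf j)).1 ⟨⟨hi, hj⟩⟩ := by
      rw [h1]
    exact h2
  by_cases hex : ∃ i, X.eta ∈ U i
  · obtain ⟨i0, hi0⟩ := hex
    set v : V := (show Sec hL (U i0) from sf i0).1 ⟨hi0⟩ with hv
    have hvL : ∀ y ∈ iSup U, v ∈ L y := by
      intro y hy
      obtain ⟨i, hi⟩ := Opens.mem_iSup.mp hy
      rw [hv, ← hc' i i0 (X.eta_mem hi) hi0]
      exact (show Sec hL (U i) from sf i).2 _ y hi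
    let s : Sec hL (iSup U) := ⟨fun _ => v, fun _ y hy => hvL y hy⟩
    refine ⟨s, ?_, ?_⟩
    · intro i
      apply Subtype.ext
      funext h
      exact (hc' i i0 h.down hi0).symm
    · intro t ht
      apply Subtype.ext
      funext h
      have h1 := ht i0
      have h2 : (show Sec hL (U i0) from (preE hL).map (TopologicalSpace.Opens.leSupr U i0).op t).1 ⟨hi0⟩ =
        (show Sec hL (U i0) from sf i0).1 ⟨hi0⟩ := by
        rw [h1]
      exact h2
  · have hno : ¬ X.eta ∈ iSup U := fun h => hex (Opens.mem_iSup.mp h)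
    refine ⟨(0 : Sec hL (iSup U)), ?_, ?_⟩
    · intro i
      apply Subtype.ext
      funext h
      exact absurd ⟨i, h.down⟩ hex
    · intro t _
      apply Subtype.ext
      funext h
      exact absurd h.down hno

instance modPre (W : (Opens X.Z.toPresheafedSpace.carrier)ᵒᵖ) :
    Module (X.Z.ringCatSheaf.obj.obj W) ((preE hL).obj W) :=
  inferInstanceAs (Module Γ(X.Z, W.unop) (Sec hL W.unop))

theorem preE_smul ⦃W W' : (Opens X.Z.toPresheafedSpace.carrier)ᵒᵖ⦄ (f : W ⟶ W')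
    (r : X.Z.ringCatSheaf.obj.obj W) (m : (preE hL).obj W) :
    (preE hL).map f (r • m) = X.Z.ringCatSheaf.obj.map f r • (preE hL).map f m := by
  apply Subtype.ext
  funext h
  have key : ∀ (r : Γ(X.Z, W.unop)) (m : Sec hL W.unop),
      X.gr W.unop (leOfHom f.unop h.down) r • m.1 ⟨leOfHom f.unop h.down⟩ =
      X.gr W'.unop h.down (X.Z.presheaf.map (homOfLE (leOfHom f.unop)).op r) •
        m.1 ⟨leOfHom f.unop h.down⟩ := by
    intro r m
    rw [X.gr_res (leOfHom f.unop h.down) (leOfHom f.unop) h.down r]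
  exact key r m

/-- the sheaf of modules -/
def EE : X.Z.Modules :=
  ⟨PresheafOfModules.ofPresheaf (preE hL) (preE_smul hL), preE_isSheaf hL⟩

/-- a section of the sheaf as a function -/
def toS {W : X.Z.Opens} (s : Γ(EE hL, W)) : Sec hL W := s

/-- a function as a section of the sheaf -/
def ofS {W : X.Z.Opens} (s : Sec hL W) : Γ(EE hL, W) := s

theorem toS_ofS {W : X.Z.Opens} (s : Sec hL W) : toS hL (ofS hL s) = s := rfl

theorem toS_inj {W : X.Z.Opens} {s t : Γ(EE hL, W)} (h : toS hL s = toS hL t) : s = t := h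

theorem toS_add {W : X.Z.Opens} (s t : Γ(EE hL, W)) : toS hL (s + t) = toS hL s + toS hL t := rfl

theorem toS_smul {W : X.Z.Opens} (r : Γ(X.Z, W)) (s : Γ(EE hL, W)) :
    toS hL (r • s) = r • toS hL s := rfl

theorem toS_res {W W' : X.Z.Opens} (i : W' ≤ W) (s : Γ(EE hL, W)) (h : X.eta ∈ W') :
    (toS hL ((EE hL).presheaf.map (homOfLE i).op s)).1 ⟨h⟩ = (toS hL s).1 ⟨i h⟩ := rfl

/-- additive version -/
def toSA (W : X.Z.Opens) : Γ(EE hL, W) →+ Sec hL W where
  toFun := toS hL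
  map_zero' := rfl
  map_add' _ _ := rfl

/-- value at the generic point of a germ -/
def ev0 (v : X.st (EE hL)) : V :=
  (toS hL (X.exists_gm (EE hL) v).choose_spec.choose_spec.choose).1
    ⟨(X.exists_gm (EE hL) v).choose_spec.choose⟩

theorem ev0_gm (W : X.Z.Opens) (h : X.eta ∈ W) (s : Γ(EE hL, W)) :
    ev0 hL (X.gm (EE hL) W h s) = (toS hL s).1 ⟨h⟩ := by
  set v := X.gm (EE hL) W h s with hv
  have h1 := (X.exists_gm (EE hL) v).choose_spec.choose_spec.choose_spec
  obtain ⟨W', hW', i, i', hh⟩ := X.gm_eq (EE hL) _ _ _ _ (h1.trans hv)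
  have h2 := congrArg (fun t => (toS hL t).1 ⟨hW'⟩) hh
  exact h2

theorem ev0_add (v w : X.st (EE hL)) : ev0 hL (v + w) = ev0 hL v + ev0 hL w := by
  obtain ⟨W, h, s, rfl⟩ := X.exists_gm (EE hL) v
  obtain ⟨W', hW', h', t, rfl⟩ := X.exists_gm_le (EE hL) w W h
  rw [← X.gm_res (EE hL) h hW' h', ← map_add, ev0_gm, ev0_gm, ev0_gm, toS_add]
  rfl

theorem ev0_smul (c : X.K) (v : X.st (EE hL)) : ev0 hL (c • v) = c • ev0 hL v := by
  obtain ⟨W, h, r, rfl⟩ := X.exists_gr c
  obtain ⟨W', hW', h', s, rfl⟩ := X.exists_gm_le (EE hL) v W h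
  rw [← X.gr_res h hW' h', ← X.gm_smul, ev0_gm, ev0_gm, toS_smul, sec_smul_val]

theorem ev0_inj (v : X.st (EE hL)) (hv : ev0 hL v = 0) : v = 0 := by
  obtain ⟨W, h, s, rfl⟩ := X.exists_gm (EE hL) v
  rw [ev0_gm] at hv
  have : s = 0 := by
    apply toS_inj hL
    apply Subtype.ext
    funext h'
    exact hv
  rw [this, map_zero]

/-- the constant section -/
def cs (W : X.Z.Opens) (v : V) (hv : ∀ y ∈ W, v ∈ L y) : Γ(EE hL, W) :=
  ofS hL ⟨fun _ => v, fun _ y hy => hv y hy⟩

theorem ev0_cs (W : X.Z.Opens) (h : X.eta ∈ W) (v : V) (hv : ∀ y ∈ W, v ∈ L y) :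
    ev0 hL (X.gm (EE hL) W h (cs hL W v hv)) = v := ev0_gm hL W h _

theorem reg_exists (c : X.K) : ∃ W : X.Z.Opens, X.eta ∈ W ∧ c ∈ X.OO W := by
  obtain ⟨W, h, r, rfl⟩ := X.exists_gr c
  exact ⟨W, h, X.gr_mem_OO W h r⟩

theorem ev0_surj (hLF : LocFree X L) (v : V) : ∃ w : X.st (EE hL), ev0 hL w = v := by
  obtain ⟨U, hU, n, e, he⟩ := hLF X.eta
  obtain ⟨W, hW, h', r, hr⟩ := X.exists_gr_fin (fun j => e.repr v j) U hU
  refine ⟨X.gm (EE hL) W h' (cs hL W v ?_), ev0_cs hL W h' v _⟩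
  intro y hy
  rw [he y (hW hy)]
  intro j
  rw [← hr j]
  exact reg_gr h' (r j) hy

/-- the stalk at the generic point -/
def evE (hLF : LocFree X L) : X.st (EE hL) ≃ₗ[X.K] V :=
  LinearEquiv.ofBijective
    { toFun := ev0 hL
      map_add' := ev0_add hL
      map_smul' := ev0_smul hL }
    ⟨by
      rw [injective_iff_map_eq_zero]
      exact ev0_inj hL, fun v => ev0_surj hL hLF v⟩

theorem evE_apply (hLF : LocFree X L) (v : X.st (EE hL)) : evE hL hLF v = ev0 hL v := rfl

theorem oo_of_reg (W : X.Z.Opens) (c : X.K) (H : ∀ y ∈ W, Reg X y c) : c ∈ X.OO W :=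
  X.mem_OO_of_local W c H

theorem sumS {n : ℕ} (W : X.Z.Opens) (h : X.eta ∈ W) (c : Fin n → Γ(X.Z, W)) (s : Fin n → Γ(EE hL, W)) :
    (toS hL (∑ j, c j • s j)).1 ⟨h⟩ = ∑ j, X.gr W h (c j) • (toS hL (s j)).1 ⟨h⟩ := by
  rw [← ev0_gm, map_sum]
  have h1 : ∀ t : Finset (Fin n), ev0 hL (∑ j ∈ t, X.gm (EE hL) W h (c j • s j)) =
      ∑ j ∈ t, X.gr W h (c j) • (toS hL (s j)).1 ⟨h⟩ := by
    intro t
    classical
    induction t using Finset.induction_on with
    | empty =>
      rw [Finset.sum_empty, Finset.sum_empty]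
      have := ev0_smul hL 0 (0 : X.st (EE hL))
      rwa [zero_smul, zero_smul] at this
    | insert j t hj ih =>
      rw [Finset.sum_insert hj, Finset.sum_insert hj, ev0_add, ih, X.gm_smul, ev0_smul, ev0_gm]
  exact h1 Finset.univ

theorem isVB_EE (hLF : LocFree X L) : IsVB (EE hL) := by
  intro x
  obtain ⟨U, hx, n, e, he⟩ := hLF x
  have heL : ∀ j, ∀ y ∈ U, e j ∈ L y := by
    intro j y hy
    rw [he y hy]
    intro j'
    rw [Module.Basis.repr_self, Finsupp.single_apply]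
    split
    · exact reg_one X y
    · exact reg_zero X y
  refine ⟨U, hx, n, fun j => cs hL U (e j) (heL j), ?_⟩
  intro W hW s
  by_cases h : X.eta ∈ W
  · have hval : ∀ c : Fin n → Γ(X.Z, W),
        (toS hL (∑ j, c j • (EE hL).presheaf.map (homOfLE hW).op (cs hL U (e j) (heL j)))).1 ⟨h⟩ =
          ∑ j, X.gr W h (c j) • e j := by
      intro c
      rw [sumS hL W h c]
      rfl
    have hreg : ∀ j, e.repr ((toS hL s).1 ⟨h⟩) j ∈ X.OO W := by
      intro j
      apply oo_of_reg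
      intro y hy
      exact (he y (hW hy) _).1 ((toS hL s).2 ⟨h⟩ y hy) j
    choose c hc using fun j => hreg j h
    refine ⟨c, ?_, ?_⟩
    · apply toS_inj hL
      apply Subtype.ext
      funext h'
      change (toS hL s).1 ⟨h⟩ = (toS hL (∑ j, c j • (EE hL).presheaf.map (homOfLE hW).op (cs hL U (e j) (heL j)))).1 ⟨h⟩
      rw [hval c]
      simp only [hc]
      exact (e.sum_repr _).symm
    · intro d hd
      funext j
      apply X.gr_injective W h
      rw [hc j]
      simp only at hd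
      rw [hd, hval d]
      rw [map_sum, Finsupp.finsetSum_apply, Finset.sum_eq_single j]
      · simp
      · intro b _ hb; simp [hb]
      · intro hj; exact absurd (Finset.mem_univ j) hj
  · have h1 : ∀ x, x ∉ W := fun x hxW => h (X.eta_mem hxW)
    have h2 := subsingleton_of_empty (EE hL) W h1
    have h3 : W = ⊥ := by
      ext y
      exact ⟨fun hy => absurd hy (h1 y), fun hy => absurd hy (by simp)⟩
    have h4 : Subsingleton Γ(X.Z, W) := by
      rw [h3]
      exact CommRingCat.subsingleton_of_isTerminal X.Z.sheaf.isTerminalOfEmpty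
    refine ⟨fun _ => 0, Subsingleton.elim _ _, fun d _ => ?_⟩
    funext j
    exact Subsingleton.elim _ _

theorem sheafOf : SheafOf.{u} := by
  intro k _ X V _ _ L hLF0
  have hLF : LocFree X L := hLF0
  have hL : IsLat X L := isLat X hLF
  refine ⟨EE hL, evE hL hLF, isVB_EE hL hLF, ?_⟩
  intro W hη v
  constructor
  · intro hv y hy
    obtain ⟨s, rfl⟩ := hv hη
    rw [evE_apply, ev0_gm]
    exact (toS hL s).2 _ y hy
  · intro hv _
    refine ⟨cs hL W (evE hL hLF v) hv, ?_⟩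
    apply (evE hL hLF).injective
    rw [evE_apply, ev0_cs]

end

end Pool.Agent.Helper7.RZ
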